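import Pool.Agent.K7.H2.UT.Stm

/-!
# Project UT (MP_862e21_al), job SUM (helper68)
-/

set_option autoImplicit false

open Finset

namespace Pool.Agent.K7.H68.UT

/-- the Fourier transform of the indicator function of `A` -/
noncomputable def S {F : Type} [Field F] (ψ : AddChar F ℂ) (A : Finset F) (t : F) : ℂ :=
  ∑ x ∈ A, ψ (t * x)

variable {F : Type} [Field F] [Fintype F]

theorem conj_S (ψ : AddChar F ℂ) (A : Finset F) (t : F) :
    (starRingEnd ℂ) (S ψ A t) = ∑ x ∈ A, ψ (t * -x) := by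
  unfold S
  rw [map_sum]
  refine Finset.sum_congr rfl fun x _ => ?_
  rw [mul_neg, AddChar.map_neg_eq_conj]

theorem sum_two [DecidableEq F] {ψ : AddChar F ℂ} (hψ : ψ.IsPrimitive) (A : Finset F) :
    ∑ t : F, S ψ A t * (starRingEnd ℂ) (S ψ A t) = (Fintype.card F : ℂ) * A.card := by
  have h1 : ∀ t : F, S ψ A t * (starRingEnd ℂ) (S ψ A t) =
      ∑ x ∈ A, ∑ y ∈ A, ψ (t * (x - y)) := by
    intro t
    rw [conj_S]
    unfold S
    rw [Finset.sum_mul_sum]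
    refine Finset.sum_congr rfl fun x _ => Finset.sum_congr rfl fun y _ => ?_
    rw [← AddChar.map_add_eq_mul]
    congr 1
    ring
  simp_rw [h1]
  rw [Finset.sum_comm]
  have h2 : ∀ x ∈ A, ∑ t : F, ∑ y ∈ A, ψ (t * (x - y)) = (Fintype.card F : ℂ) := by
    intro x hx
    rw [Finset.sum_comm]
    simp_rw [AddChar.sum_mulShift _ hψ, sub_eq_zero]
    simp [hx]
  rw [Finset.sum_congr rfl h2, Finset.sum_const, nsmul_eq_mul]
  ring

theorem sum_three [DecidableEq F] {ψ : AddChar F ℂ} (hψ : ψ.IsPrimitive) (A : Finset F)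
    (hA : ∀ x ∈ A, ∀ y ∈ A, ∀ z ∈ A, x + y ≠ z) :
    ∑ t : F, S ψ A t * S ψ A t * (starRingEnd ℂ) (S ψ A t) = 0 := by
  have h1 : ∀ t : F, S ψ A t * S ψ A t * (starRingEnd ℂ) (S ψ A t) =
      ∑ x ∈ A, ∑ y ∈ A, ∑ z ∈ A, ψ (t * (x + y - z)) := by
    intro t
    rw [conj_S]
    unfold S
    rw [Finset.sum_mul_sum, Finset.sum_mul]
    refine Finset.sum_congr rfl fun x _ => ?_
    rw [Finset.sum_mul]
    refine Finset.sum_congr rfl fun y _ => ?_
    rw [Finset.mul_sum]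
    refine Finset.sum_congr rfl fun z _ => ?_
    rw [← AddChar.map_add_eq_mul, ← AddChar.map_add_eq_mul]
    congr 1
    ring
  simp_rw [h1]
  rw [Finset.sum_comm]
  refine Finset.sum_eq_zero fun x hx => ?_
  rw [Finset.sum_comm]
  refine Finset.sum_eq_zero fun y hy => ?_
  rw [Finset.sum_comm]
  refine Finset.sum_eq_zero fun z hz => ?_
  rw [AddChar.sum_mulShift _ hψ, if_neg]
  · simp
  · intro h
    exact hA x hx y hy z hz (by linear_combination h)

theorem S_mul (ψ : AddChar F ℂ) (A : Finset F) (h0 : (0 : F) ∉ A)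
    (hmul : ∀ u ∈ A, ∀ x ∈ A, u * x ∈ A) (hinv : ∀ u ∈ A, u⁻¹ ∈ A) (t u : F) (hu : u ∈ A) :
    S ψ A (t * u) = S ψ A t := by
  have hu0 : u ≠ 0 := fun h => h0 (h ▸ hu)
  unfold S
  refine Finset.sum_nbij' (fun x => u * x) (fun x => u⁻¹ * x) ?_ ?_ ?_ ?_ ?_
  · intro x hx; exact hmul u hu x hx
  · intro x hx; exact hmul _ (hinv u hu) x hx
  · intro x _; field_simp
  · intro x _; field_simp
  · intro x _; rw [mul_assoc]

theorem key [DecidableEq F] (A : Finset F) (h0 : (0 : F) ∉ A)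
    (hmul : ∀ u ∈ A, ∀ x ∈ A, u * x ∈ A) (hinv : ∀ u ∈ A, u⁻¹ ∈ A) (hne : A.Nonempty)
    (hA : ∀ x ∈ A, ∀ y ∈ A, ∀ z ∈ A, x + y ≠ z) :
    (A.card : ℝ) ^ 4 ≤ ((Fintype.card F : ℝ) - A.card) ^ 3 := by
  have hh : ringChar ℂ ≠ ringChar F := by
    have h1 : ringChar ℂ = 0 := ringChar.eq_zero
    have h2 : ringChar F ≠ 0 := CharP.ringChar_ne_zero_of_finite F
    rw [h1]; exact h2.symm
  set ψ : AddChar F ℂ := AddChar.FiniteField.primitiveChar_to_Complex F with hψd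
  have hψ : ψ.IsPrimitive := AddChar.FiniteField.primitiveChar_to_Complex_isPrimitive F
  set q : ℝ := ((Fintype.card F : ℕ) : ℝ) with hq
  set h : ℝ := ((A.card : ℕ) : ℝ) with hh'
  have hpos : 0 < h := by
    rw [hh']; exact_mod_cast hne.card_pos
  have hhq : h ≤ q := by
    rw [hh', hq]; exact_mod_cast Finset.card_le_univ A
  have hS0 : S ψ A 0 = (h : ℂ) := by
    unfold S
    simp [hh']
  have hsq : ∀ t, S ψ A t * (starRingEnd ℂ) (S ψ A t) = ((‖S ψ A t‖ ^ 2 : ℝ) : ℂ) := by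
    intro t
    rw [Complex.mul_conj, Complex.normSq_eq_norm_sq]
  have h2 : ∑ t : F, ‖S ψ A t‖ ^ 2 = q * h := by
    have := sum_two hψ A
    simp_rw [hsq] at this
    have h7 : ∑ i, ‖S ψ A i‖ ^ 2 = ((Fintype.card F * A.card : ℕ) : ℝ) := by exact_mod_cast this
    rw [h7, hq, hh']
    push_cast
    rfl
  have h2' : ∑ t ∈ univ.erase (0 : F), ‖S ψ A t‖ ^ 2 = h * (q - h) := by
    have h3 := Finset.add_sum_erase univ (fun t => ‖S ψ A t‖ ^ 2) (Finset.mem_univ (0 : F))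
    rw [h2] at h3
    simp only [hS0] at h3
    have h4 : ‖(h : ℂ)‖ ^ 2 = h ^ 2 := by
      rw [Complex.norm_real, Real.norm_eq_abs, sq_abs]
    rw [h4] at h3
    linarith
  -- pointwise bound
  have hpt : ∀ t ∈ univ.erase (0 : F), ‖S ψ A t‖ ^ 2 ≤ q - h := by
    intro t ht
    have ht0 : t ≠ 0 := Finset.ne_of_mem_erase ht
    have h5 : ∑ s ∈ A.image (fun u => t * u), ‖S ψ A s‖ ^ 2 = h * ‖S ψ A t‖ ^ 2 := by
      rw [Finset.sum_image (fun a _ b _ hab => mul_left_cancel₀ ht0 hab)]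
      rw [Finset.sum_congr rfl (fun u hu => by rw [S_mul ψ A h0 hmul hinv t u hu]),
        Finset.sum_const, nsmul_eq_mul]
    have h6 : ∑ s ∈ A.image (fun u => t * u), ‖S ψ A s‖ ^ 2 ≤
        ∑ s ∈ univ.erase (0 : F), ‖S ψ A s‖ ^ 2 := by
      apply Finset.sum_le_sum_of_subset_of_nonneg
      · intro s hs
        rw [Finset.mem_image] at hs
        obtain ⟨u, hu, rfl⟩ := hs
        rw [Finset.mem_erase]
        exact ⟨mul_ne_zero ht0 (fun h7 => h0 (h7 ▸ hu)), Finset.mem_univ _⟩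
      · intro s _ _; positivity
    rw [h5, h2'] at h6
    exact le_of_mul_le_mul_left h6 hpos
  have h3 : h ^ 3 ≤ ∑ t ∈ univ.erase (0 : F), ‖S ψ A t‖ ^ 3 := by
    have h4 := sum_three hψ A hA
    rw [← Finset.add_sum_erase univ _ (Finset.mem_univ (0 : F))] at h4
    have h5 : ‖S ψ A 0 * S ψ A 0 * (starRingEnd ℂ) (S ψ A 0)‖ = h ^ 3 := by
      rw [hS0, norm_mul, norm_mul, RCLike.norm_conj, Complex.norm_real, Real.norm_eq_abs,
        abs_of_pos hpos]
      ring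
    rw [← h5, eq_neg_of_add_eq_zero_left h4, norm_neg]
    refine (norm_sum_le _ _).trans (Finset.sum_le_sum fun t _ => ?_)
    rw [norm_mul, norm_mul, RCLike.norm_conj]
    apply le_of_eq
    ring
  set B : ℝ := √(q - h) with hB
  have hB0 : 0 ≤ B := Real.sqrt_nonneg _
  have hB2 : B ^ 2 = q - h := Real.sq_sqrt (by linarith)
  have h4 : ∑ t ∈ univ.erase (0 : F), ‖S ψ A t‖ ^ 3 ≤ B * (h * (q - h)) := by
    rw [← h2', Finset.mul_sum]
    refine Finset.sum_le_sum fun t ht => ?_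
    have h5 : ‖S ψ A t‖ ≤ B := Real.le_sqrt_of_sq_le (hpt t ht)
    calc ‖S ψ A t‖ ^ 3 = ‖S ψ A t‖ * ‖S ψ A t‖ ^ 2 := by ring
      _ ≤ B * ‖S ψ A t‖ ^ 2 := mul_le_mul_of_nonneg_right h5 (by positivity)
  have h5 : h ^ 2 ≤ B ^ 3 := by
    have h6 : h * h ^ 2 ≤ h * B ^ 3 := by
      calc h * h ^ 2 = h ^ 3 := by ring
        _ ≤ B * (h * (q - h)) := h3.trans h4
        _ = h * B ^ 3 := by rw [← hB2]; ring
    exact le_of_mul_le_mul_left h6 hpos
  calc h ^ 4 = (h ^ 2) ^ 2 := by ring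
    _ ≤ (B ^ 3) ^ 2 := by
        apply pow_le_pow_left₀ (by positivity) h5
    _ = (q - h) ^ 3 := by rw [← hB2]; ring

/-- the statement of the job -/
theorem stSUM : Pool.Agent.K7.H2.UT.StSUM := by
  classical
  intro F _ _ H h2 h4
  by_contra hcon
  set A : Finset F := univ.filter (fun x => ∃ u ∈ H, (u : F) = x) with hAdef
  have hmem : ∀ x, x ∈ A ↔ ∃ u ∈ H, (u : F) = x := by
    intro x; rw [hAdef]; simp
  have h0 : (0 : F) ∉ A := by
    rw [hmem]
    rintro ⟨u, -, hu⟩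
    exact u.ne_zero hu
  have hmul : ∀ u ∈ A, ∀ x ∈ A, u * x ∈ A := by
    intro u hu x hx
    rw [hmem] at hu hx ⊢
    obtain ⟨a, ha, rfl⟩ := hu
    obtain ⟨b, hb, rfl⟩ := hx
    exact ⟨a * b, H.mul_mem ha hb, by simp⟩
  have hinv : ∀ u ∈ A, u⁻¹ ∈ A := by
    intro u hu
    rw [hmem] at hu ⊢
    obtain ⟨a, ha, rfl⟩ := hu
    exact ⟨a⁻¹, H.inv_mem ha, by simp⟩
  have hne : A.Nonempty := ⟨1, (hmem 1).2 ⟨1, H.one_mem, by simp⟩⟩
  have hA : ∀ x ∈ A, ∀ y ∈ A, ∀ z ∈ A, x + y ≠ z := by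
    intro x hx y hy z hz h
    rw [hmem] at hx hy hz
    obtain ⟨a, ha, rfl⟩ := hx
    obtain ⟨b, hb, rfl⟩ := hy
    obtain ⟨c, hc, rfl⟩ := hz
    exact hcon ⟨a, ha, b, hb, c, hc, h⟩
  have hk := key A h0 hmul hinv hne hA
  have hcard : A.card = Nat.card H := by
    have h5 : A = (univ : Finset ↥H).image (fun u : ↥H => ((u : Fˣ) : F)) := by
      ext x
      rw [hmem, Finset.mem_image]
      constructor
      · rintro ⟨u, hu, rfl⟩; exact ⟨⟨u, hu⟩, Finset.mem_univ _, rfl⟩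
      · rintro ⟨u, -, rfl⟩; exact ⟨u, u.2, rfl⟩
    rw [h5, Finset.card_image_of_injective, Finset.card_univ, Nat.card_eq_fintype_card]
    intro a b hab
    exact Subtype.ext (Units.ext hab)
  have hidx : Nat.card H * H.index = Fintype.card F - 1 := by
    rw [Subgroup.card_mul_index, Nat.card_eq_fintype_card, Fintype.card_units]
  have hq1 : 1 ≤ Fintype.card F := Fintype.card_pos
  set r := H.index with hr
  set m := Nat.card H with hm
  set Q := Fintype.card F with hQ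
  have hm0 : 0 < m := Nat.card_pos
  have h6 : r ^ 3 ≤ m := by
    have h7 : r ^ 4 ≤ m * r := by omega
    have h8 : r * r ^ 3 ≤ r * m := by
      calc r * r ^ 3 = r ^ 4 := by ring
        _ ≤ m * r := h7
        _ = r * m := by ring
    exact Nat.le_of_mul_le_mul_left h8 (by omega)
  rw [hcard] at hk
  have hQr : (Q : ℝ) = (m : ℝ) * r + 1 := by
    have : Q = m * r + 1 := by omega
    rw [this]; push_cast; ring
  rw [hQr] at hk
  have hr2 : (2 : ℝ) ≤ r := by exact_mod_cast h2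
  have h6' : (r : ℝ) ^ 3 ≤ m := by exact_mod_cast h6
  have hm8 : (8 : ℝ) ≤ m := by
    have : (2 : ℝ) ^ 3 ≤ (r : ℝ) ^ 3 := pow_le_pow_left₀ (by norm_num) hr2 3
    linarith
  have h9 : ((m : ℝ) * r + 1 - m) ^ 3 < ((m : ℝ) * r) ^ 3 := by
    apply pow_lt_pow_left₀ _ _ (by norm_num)
    · linarith
    · nlinarith
  have h10 : ((m : ℝ) * r) ^ 3 ≤ (m : ℝ) ^ 4 := by
    calc ((m : ℝ) * r) ^ 3 = (m : ℝ) ^ 3 * (r : ℝ) ^ 3 := by ring
      _ ≤ (m : ℝ) ^ 3 * m := mul_le_mul_of_nonneg_left h6' (by positivity)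
      _ = (m : ℝ) ^ 4 := by ring
  linarith

end Pool.Agent.K7.H68.UT
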